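import Pool.Agent.Helper721_Z.Gen

/-!
# Zeros in character table rows bound the index of the Fitting subgroup above a solvable normal
subgroup
-/

set_option autoImplicit false

namespace Pool.Agent.Results.MP_ad7422_al.FittingIndexAboveSolvable

/-- `F` is the Fitting subgroup: the largest normal nilpotent subgroup. -/
def IsFitting {G : Type} [Group G] (F : Subgroup G) : Prop :=
  F.Normal ∧ Group.IsNilpotent F ∧
    ∀ N : Subgroup G, N.Normal → Group.IsNilpotent N → N ≤ F

/-- The irreducible complex characters of `G`. -/
def Irr (G : Type) [Group G] : Set (G → ℂ) :=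
  {χ | ∃ V : FDRep ℂ G, CategoryTheory.Simple V ∧ V.character = χ}

/-- The number of conjugacy classes on which `χ` takes the value `0`. -/
noncomputable def zeros {G : Type} [Group G] (χ : G → ℂ) : ℕ :=
  {c : ConjClasses G | ∀ g : G, ConjClasses.mk g = c → χ g = 0}.ncard

open Pool.Agent.Helper721_Z in
/-- There is a function `f` such that in every finite group `G` all of whose irreducible
characters vanish on at most `m` conjugacy classes the Fitting subgroup has index at most
`f m |G : R|` for every solvable normal subgroup `R`. -/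
theorem result : ∃ f : ℕ → ℕ → ℕ, ∀ (G : Type) [Group G] [Finite G] (m : ℕ),
    (∀ χ ∈ Irr G, zeros χ ≤ m) → ∀ R : Subgroup G, R.Normal → Group.IsSolvable R →
      ∀ F : Subgroup G, IsFitting F → F.index ≤ f m R.index := by
  obtain ⟨f, hf⟩ := fitting_index'
  refine ⟨f, ?_⟩
  intro G _ _ m hm R hR hRs F hF
  have hZ : ZB m G := by
    intro V hV
    have h1 := hm V.character ⟨V, hV, rfl⟩
    refine le_trans (le_of_eq ?_) h1
    rw [zeros, ← Nat.card_coe_set_eq]
    apply Nat.card_congr
    apply Equiv.subtypeEquivRight
    intro c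
    constructor
    · rintro ⟨g, hg, h0⟩ g' hg'
      rw [← hg, ConjClasses.mk_eq_mk_iff_isConj, isConj_iff] at hg'
      obtain ⟨y, hy⟩ := hg'
      have h2 := V.char_conj g' y
      rw [hy] at h2
      rw [← h2]
      exact h0
    · intro h
      obtain ⟨g, hg⟩ := ConjClasses.exists_rep c
      exact ⟨g, hg, h g hg⟩
  obtain ⟨N, hN, hN1, -, hN2⟩ := hf m G R hR hRs hZ
  exact le_trans (Subgroup.index_antitone (hF.2.2 N hN hN1)) hN2

end Pool.Agent.Results.MP_ad7422_al.FittingIndexAboveSolvable
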